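import Pool.Agent.Lib.MP_c7af3c_ag.ELL.Model

/-!
# MP_c7af3c_ag, project ELL: modules PBC and PFT
-/

set_option autoImplicit false

namespace Pool.Agent.Ell.H30

open AlgebraicGeometry CategoryTheory CategoryTheory.Limits HomogeneousLocalization
open MvPolynomial (homogeneousSubmodule)

section

attribute [local instance] MvPolynomial.gradedAlgebra

variable {A : Type} [CommRing A] {n : ℕ}

/-- the constants in a chart -/
noncomputable def alg (s : MvPolynomial (Fin (n + 1)) A) :
    A →+* Away (homogeneousSubmodule (Fin (n + 1)) A) s :=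
  (fromZeroRingHom (homogeneousSubmodule (Fin (n + 1)) A) (Submonoid.powers s)).comp
    (algebraMap A (homogeneousSubmodule (Fin (n + 1)) A 0))

/-- the coordinates in a chart -/
noncomputable def xl (s : MvPolynomial (Fin (n + 1)) A)
    (hs : s ∈ homogeneousSubmodule (Fin (n + 1)) A 1) (l : Fin (n + 1)) :
    Away (homogeneousSubmodule (Fin (n + 1)) A) s :=
  Away.mk _ hs 1 (MvPolynomial.X l)
    ((MvPolynomial.mem_homogeneousSubmodule _ _).2 (MvPolynomial.isHomogeneous_X A l))

theorem val_alg (s : MvPolynomial (Fin (n + 1)) A) (a : A) :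
    (alg s a).val = algebraMap (MvPolynomial (Fin (n + 1)) A) (Localization.Away s)
      (MvPolynomial.C a) := by
  unfold alg
  rw [RingHom.comp_apply]
  change (HomogeneousLocalization.mk _).val = _
  rw [HomogeneousLocalization.val_mk, Localization.mk_eq_mk', IsLocalization.mk'_eq_iff_eq_mul]
  change algebraMap (MvPolynomial (Fin (n + 1)) A) (Localization.Away s) (MvPolynomial.C a) =
    algebraMap (MvPolynomial (Fin (n + 1)) A) (Localization.Away s) (MvPolynomial.C a) *
    algebraMap (MvPolynomial (Fin (n + 1)) A) (Localization.Away s) 1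
  rw [map_one, mul_one]

theorem gen (s : MvPolynomial (Fin (n + 1)) A)
    (hs : s ∈ homogeneousSubmodule (Fin (n + 1)) A 1) (k : ℕ) (p : MvPolynomial (Fin (n + 1)) A)
    (hp : p ∈ homogeneousSubmodule (Fin (n + 1)) A (k • 1)) :
    Away.mk _ hs k p hp = MvPolynomial.eval₂Hom (alg s) (xl s hs) p := by
  apply val_injective
  rw [Away.val_mk]
  set θ := algebraMap (MvPolynomial (Fin (n + 1)) A) (Localization.Away s) with hθ
  set u : Localization.Away s := IsLocalization.Away.invSelf s with hu
  have hus : θ s * u = 1 := IsLocalization.Away.mul_invSelf s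
  have hmk : ∀ (q : MvPolynomial (Fin (n + 1)) A) (m : ℕ),
      Localization.mk q (⟨s ^ m, by use m⟩ : Submonoid.powers s) = θ q * u ^ m := by
    intro q m
    rw [Localization.mk_eq_mk', IsLocalization.mk'_eq_iff_eq_mul]
    change θ q = θ q * u ^ m * θ (s ^ m)
    rw [map_pow, mul_assoc, ← mul_pow, mul_comm u, hus, one_pow, mul_one]
  rw [hmk]
  have h2 : (MvPolynomial.eval₂Hom (alg s) (xl s hs) p).val =
      algebraMap (Away (homogeneousSubmodule (Fin (n + 1)) A) s) (Localization.Away s)
        (MvPolynomial.eval₂Hom (alg s) (xl s hs) p) := rfl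
  rw [h2, MvPolynomial.coe_eval₂Hom, MvPolynomial.eval₂_eq', map_sum]
  have h3 : θ p = ∑ d ∈ p.support, θ (MvPolynomial.C (p.coeff d)) * ∏ i, θ (MvPolynomial.X i) ^ d i := by
    conv_lhs => rw [← MvPolynomial.eval₂_eta p, MvPolynomial.eval₂_eq', map_sum]
    refine Finset.sum_congr rfl fun d _ => ?_
    rw [map_mul, map_prod]
    simp only [map_pow]
  rw [h3, Finset.sum_mul]
  refine Finset.sum_congr rfl fun d hd => ?_
  rw [map_mul, map_prod]
  have h4 : ∀ i, algebraMap (Away (homogeneousSubmodule (Fin (n + 1)) A) s) (Localization.Away s)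
      (xl s hs i ^ d i) = θ (MvPolynomial.X i) ^ d i * u ^ d i := by
    intro i
    rw [map_pow, ← mul_pow]
    congr 1
    change (xl s hs i).val = _
    unfold xl
    rw [Away.val_mk, hmk, pow_one]
  rw [Finset.prod_congr rfl fun i _ => h4 i, Finset.prod_mul_distrib, Finset.prod_pow_eq_pow_sum]
  have h5 : ∑ i, d i = k := by
    have h6 := MvPolynomial.IsHomogeneous.degree_eq_sum_deg_support
      ((MvPolynomial.mem_homogeneousSubmodule _ _).1 hp) hd
    rw [← Finsupp.degree_eq_sum, Finsupp.degree_apply, ← h6]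
    simp
  rw [h5, ← mul_assoc]
  rfl

theorem away_ext {R : Type} [CommRing R] (s : MvPolynomial (Fin (n + 1)) A)
    (hs : s ∈ homogeneousSubmodule (Fin (n + 1)) A 1)
    (φ φ' : Away (homogeneousSubmodule (Fin (n + 1)) A) s →+* R)
    (h1 : ∀ a, φ (alg s a) = φ' (alg s a)) (h2 : ∀ l, φ (xl s hs l) = φ' (xl s hs l)) :
    φ = φ' := by
  ext x
  obtain ⟨k, p, hp, rfl⟩ := Away.mk_surjective _ hs x
  rw [gen]
  have h3 : φ.comp (MvPolynomial.eval₂Hom (alg s) (xl s hs)) =
      φ'.comp (MvPolynomial.eval₂Hom (alg s) (xl s hs)) := by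
    apply MvPolynomial.ringHom_ext
    · intro a; simpa using h1 a
    · intro l; simpa using h2 l
  exact RingHom.congr_fun h3 p

/-- the homomorphism from the ring of a chart given by the values of the coordinates -/
noncomputable def ev {R : Type} [CommRing R] (s : MvPolynomial (Fin (n + 1)) A) (ψ : A →+* R)
    (z : Fin (n + 1) → R) (hz : MvPolynomial.eval₂Hom ψ z s = 1) :
    Away (homogeneousSubmodule (Fin (n + 1)) A) s →+* R :=
  (Localization.awayLift (MvPolynomial.eval₂Hom ψ z) s (hz ▸ isUnit_one)).comp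
    (algebraMap (Away (homogeneousSubmodule (Fin (n + 1)) A) s) (Localization.Away s))

theorem ev_apply {R : Type} [CommRing R] (s : MvPolynomial (Fin (n + 1)) A) (ψ : A →+* R)
    (z : Fin (n + 1) → R) (hz : MvPolynomial.eval₂Hom ψ z s = 1)
    (x : Away (homogeneousSubmodule (Fin (n + 1)) A) s) :
    ev s ψ z hz x = Localization.awayLift (MvPolynomial.eval₂Hom ψ z) s (hz ▸ isUnit_one) x.val :=
  rfl

theorem ev_alg {R : Type} [CommRing R] (s : MvPolynomial (Fin (n + 1)) A) (ψ : A →+* R)
    (z : Fin (n + 1) → R) (hz : MvPolynomial.eval₂Hom ψ z s = 1) (a : A) :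
    ev s ψ z hz (alg s a) = ψ a := by
  rw [ev_apply, val_alg]
  unfold Localization.awayLift
  rw [IsLocalization.Away.lift_eq]
  simp

theorem ev_xl {R : Type} [CommRing R] (s : MvPolynomial (Fin (n + 1)) A)
    (hs : s ∈ homogeneousSubmodule (Fin (n + 1)) A 1) (ψ : A →+* R)
    (z : Fin (n + 1) → R) (hz : MvPolynomial.eval₂Hom ψ z s = 1) (l : Fin (n + 1)) :
    ev s ψ z hz (xl s hs l) = z l := by
  rw [ev_apply]
  unfold xl
  rw [Away.val_mk]
  have := Localization.awayLift_mk (MvPolynomial.eval₂Hom ψ z) s (MvPolynomial.X l) 1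
    (by rw [mul_one, hz]) 1
  refine this.trans ?_
  simp

variable {B : Type} [CommRing B]

theorem gmap_mem (f : A →+* B) {s : MvPolynomial (Fin (n + 1)) A}
    (hs : s ∈ homogeneousSubmodule (Fin (n + 1)) A 1) :
    gmap f n s ∈ homogeneousSubmodule (Fin (n + 1)) B 1 := (gmap f n).2 hs

theorem map_alg (f : A →+* B) (s : MvPolynomial (Fin (n + 1)) A) (a : A) :
    Away.map (gmap f n) s (alg s a) = alg (gmap f n s) (f a) := by
  apply val_injective
  rw [val_alg]
  unfold alg Away.map
  rw [RingHom.comp_apply]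
  change (HomogeneousLocalization.map (gmap f n) _ (HomogeneousLocalization.mk _)).val = _
  rw [HomogeneousLocalization.map_mk, HomogeneousLocalization.val_mk]
  rw [Localization.mk_eq_mk', IsLocalization.mk'_eq_iff_eq_mul]
  change algebraMap _ _ (MvPolynomial.map f (MvPolynomial.C a)) =
    algebraMap _ _ (MvPolynomial.C (f a)) * algebraMap _ _ (MvPolynomial.map f 1)
  rw [map_one, map_one, mul_one, MvPolynomial.map_C]

theorem map_xl (f : A →+* B) (s : MvPolynomial (Fin (n + 1)) A)
    (hs : s ∈ homogeneousSubmodule (Fin (n + 1)) A 1) (l : Fin (n + 1)) :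
    Away.map (gmap f n) s (xl s hs l) = xl (gmap f n s) (gmap_mem f hs) l := by
  unfold xl
  rw [Away.map_mk]
  apply val_injective
  rw [Away.val_mk, Away.val_mk]
  congr 1
  exact MvPolynomial.map_X f l

/-- the values of the coordinates -/
theorem key {R : Type} [CommRing R] (f : A →+* B) (s : MvPolynomial (Fin (n + 1)) A)
    (hs : s ∈ homogeneousSubmodule (Fin (n + 1)) A 1)
    (φ : Away (homogeneousSubmodule (Fin (n + 1)) A) s →+* R) (ψ : B →+* R)
    (h : ∀ a, φ (alg s a) = ψ (f a)) :
    MvPolynomial.eval₂Hom ψ (fun l => φ (xl s hs l)) (gmap f n s) = 1 := by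
  have h1 : (MvPolynomial.eval₂Hom ψ (fun l => φ (xl s hs l))).comp (MvPolynomial.map f) =
      φ.comp (MvPolynomial.eval₂Hom (alg s) (xl s hs)) := by
    apply MvPolynomial.ringHom_ext
    · intro a
      simp [h a]
    · intro l
      simp
  have h2 := RingHom.congr_fun h1 s
  rw [RingHom.comp_apply, RingHom.comp_apply, ← gen s hs 1 s (by simpa using hs)] at h2
  have h3 : Away.mk (homogeneousSubmodule (Fin (n + 1)) A) hs 1 s (by simpa using hs) = 1 := by
    apply val_injective
    rw [Away.val_mk, HomogeneousLocalization.val_one, Localization.mk_eq_mk',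
      IsLocalization.mk'_eq_iff_eq_mul]
    simp
  rw [h3, map_one] at h2
  exact h2

/-- the universal property -/
theorem exists_desc {R : Type} [CommRing R] (f : A →+* B) (s : MvPolynomial (Fin (n + 1)) A)
    (hs : s ∈ homogeneousSubmodule (Fin (n + 1)) A 1)
    (φ : Away (homogeneousSubmodule (Fin (n + 1)) A) s →+* R) (ψ : B →+* R)
    (h : ∀ a, φ (alg s a) = ψ (f a)) :
    ∃ g : Away (homogeneousSubmodule (Fin (n + 1)) B) (gmap f n s) →+* R,
      g.comp (Away.map (gmap f n) s) = φ ∧ g.comp (alg (gmap f n s)) = ψ := by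
  refine ⟨ev (gmap f n s) ψ (fun l => φ (xl s hs l)) (key f s hs φ ψ h), ?_, ?_⟩
  · refine away_ext s hs _ _ ?_ ?_
    · intro a
      rw [RingHom.comp_apply, map_alg, ev_alg, h]
    · intro l
      rw [RingHom.comp_apply, map_xl f s hs, ev_xl]
  · ext b
    rw [RingHom.comp_apply, ev_alg]

theorem desc_ext {R : Type} [CommRing R] (f : A →+* B) (s : MvPolynomial (Fin (n + 1)) A)
    (hs : s ∈ homogeneousSubmodule (Fin (n + 1)) A 1)
    (g g' : Away (homogeneousSubmodule (Fin (n + 1)) B) (gmap f n s) →+* R)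
    (h1 : g.comp (Away.map (gmap f n) s) = g'.comp (Away.map (gmap f n) s))
    (h2 : g.comp (alg (gmap f n s)) = g'.comp (alg (gmap f n s))) : g = g' := by
  refine away_ext (gmap f n s) (gmap_mem f hs) _ _ ?_ ?_
  · intro b
    exact RingHom.congr_fun h2 b
  · intro l
    rw [← map_xl f s hs l]
    exact RingHom.congr_fun h1 (xl s hs l)

theorem isPushout_away (f : A →+* B) (s : MvPolynomial (Fin (n + 1)) A)
    (hs : s ∈ homogeneousSubmodule (Fin (n + 1)) A 1) :
    IsPushout (CommRingCat.ofHom (alg s)) (CommRingCat.ofHom f)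
      (CommRingCat.ofHom (Away.map (gmap f n) s)) (CommRingCat.ofHom (alg (gmap f n s))) := by
  have hcomm : CommRingCat.ofHom (alg s) ≫ CommRingCat.ofHom (Away.map (gmap f n) s) =
      CommRingCat.ofHom f ≫ CommRingCat.ofHom (alg (gmap f n s)) := by
    apply CommRingCat.hom_ext
    exact RingHom.ext fun a => map_alg f s a
  have hex : ∀ c : PushoutCocone (CommRingCat.ofHom (alg s)) (CommRingCat.ofHom f),
      ∃ g : Away (homogeneousSubmodule (Fin (n + 1)) B) (gmap f n s) →+* c.pt,
      g.comp (Away.map (gmap f n) s) = c.inl.hom ∧ g.comp (alg (gmap f n s)) = c.inr.hom := by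
    intro c
    apply exists_desc f s hs c.inl.hom c.inr.hom
    intro a
    exact RingHom.congr_fun (congrArg CommRingCat.Hom.hom c.condition) a
  choose g hg1 hg2 using hex
  refine ⟨⟨hcomm⟩, ⟨PushoutCocone.IsColimit.mk _ (fun c => CommRingCat.ofHom (g c)) ?_ ?_ ?_⟩⟩
  · intro c
    apply CommRingCat.hom_ext
    exact hg1 c
  · intro c
    apply CommRingCat.hom_ext
    exact hg2 c
  · intro c m h1 h2
    apply CommRingCat.hom_ext
    refine desc_ext f s hs _ _ ?_ ?_
    · exact (congrArg CommRingCat.Hom.hom h1).trans (hg1 c).symm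
    · exact (congrArg CommRingCat.Hom.hom h2).trans (hg2 c).symm

theorem awayι_strP (s : MvPolynomial (Fin (n + 1)) A)
    (hs : s ∈ homogeneousSubmodule (Fin (n + 1)) A 1) :
    Proj.awayι (homogeneousSubmodule (Fin (n + 1)) A) s hs Nat.one_pos ≫ strP A n =
      Spec.map (CommRingCat.ofHom (alg s)) := by
  rw [strP, Proj.awayι_toSpecZero_assoc, ← Spec.map_comp]
  rfl

/-- the charts of projective space over the larger ring -/
theorem chart_pullback (f : A →+* B) (s : MvPolynomial (Fin (n + 1)) A)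
    (hs : s ∈ homogeneousSubmodule (Fin (n + 1)) A 1) :
    IsPullback (Spec.map (CommRingCat.ofHom (Away.map (gmap f n) s)))
      (Proj.awayι (homogeneousSubmodule (Fin (n + 1)) B) (gmap f n s) (gmap_mem f hs) Nat.one_pos)
      (Proj.awayι (homogeneousSubmodule (Fin (n + 1)) A) s hs Nat.one_pos) (prP f n) := by
  apply IsOpenImmersion.isPullback
  · exact Proj.awayι_comp_map (gmap f n) (gmap_irr f n) Nat.one_pos s hs
  · rw [Proj.opensRange_awayι, Proj.opensRange_awayι]
    rfl

theorem irr_le (A : Type) [CommRing A] (n : ℕ) :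
    (HomogeneousIdeal.irrelevant (homogeneousSubmodule (Fin (n + 1)) A)).toIdeal ≤
      Ideal.span (Set.range fun j : Fin (n + 1) => (MvPolynomial.X j : MvPolynomial _ A)) := by
  rw [HomogeneousIdeal.toIdeal_irrelevant_le]
  intro i hi x hx
  change x ∈ homogeneousSubmodule (Fin (n + 1)) A i at hx
  rw [MvPolynomial.mem_homogeneousSubmodule] at hx
  rw [MvPolynomial.as_sum x]
  refine Ideal.sum_mem _ fun I hI => ?_
  have hI0 : I ≠ 0 := by
    rintro rfl
    have h4 := hx (MvPolynomial.mem_support_iff.1 hI)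
    simp at h4
    omega
  obtain ⟨j, hj⟩ : ∃ j, I j ≠ 0 := by
    by_contra hcon
    push Not at hcon
    exact hI0 (Finsupp.ext hcon)
  have h5 : MvPolynomial.monomial I (MvPolynomial.coeff I x) =
      MvPolynomial.monomial (I - Finsupp.single j 1) (MvPolynomial.coeff I x) *
        MvPolynomial.X j := by
    rw [MvPolynomial.X, MvPolynomial.monomial_mul, mul_one, tsub_add_cancel_of_le]
    rw [Finsupp.single_le_iff]
    exact Nat.one_le_iff_ne_zero.2 hj
  rw [h5]
  exact Ideal.mul_mem_left _ _ (Ideal.subset_span ⟨j, rfl⟩)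

theorem X_mem (A : Type) [CommRing A] (n : ℕ) (j : Fin (n + 1)) :
    (MvPolynomial.X j : MvPolynomial (Fin (n + 1)) A) ∈
      homogeneousSubmodule (Fin (n + 1)) A 1 :=
  (MvPolynomial.mem_homogeneousSubmodule _ _).2 (MvPolynomial.isHomogeneous_X A j)

/-- the standard cover -/
noncomputable def cov (A : Type) [CommRing A] (n : ℕ) : (PP A n).AffineOpenCover :=
  Proj.affineOpenCoverOfIrrelevantLESpan (homogeneousSubmodule (Fin (n + 1)) A)
    (fun j : Fin (n + 1) => MvPolynomial.X j) (m := fun _ => 1) (X_mem A n)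
    (fun _ => Nat.one_pos) (irr_le A n)

/-- the standard chart -/
noncomputable abbrev chi (A : Type) [CommRing A] (n : ℕ) (j : Fin (n + 1)) :
    Spec (CommRingCat.of (Away (homogeneousSubmodule (Fin (n + 1)) A) (MvPolynomial.X j))) ⟶
      PP A n :=
  Proj.awayι (homogeneousSubmodule (Fin (n + 1)) A) (MvPolynomial.X j) (X_mem A n j) Nat.one_pos

/-- module PBC -/
theorem pbc : PbcStatement := by
  intro A B _ _ f n
  refine Scheme.isPullback_of_openCover _ _ _ _ (cov A n).openCover fun j => ?_
  have e1 := chart_pullback (n := n) f (MvPolynomial.X j) (X_mem A n j)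
  have e2 := awayι_strP (MvPolynomial.X j) (X_mem A n j)
  have e3 := awayι_strP (gmap f n (MvPolynomial.X j)) (gmap_mem f (X_mem A n j))
  have e4 := isPullback_SpecMap_of_isPushout _ _ _ _
    (isPushout_away (n := n) f (MvPolynomial.X j) (X_mem A n j))
  have e5 := e1.flip
  change IsPullback (pullback.snd (prP f n) (chi A n j))
    (pullback.fst (prP f n) (chi A n j) ≫ strP B n) (chi A n j ≫ strP A n)
    (Spec.map (CommRingCat.ofHom f))
  refine IsPullback.of_iso e4 e5.isoPullback (Iso.refl _) (Iso.refl _) (Iso.refl _) ?_ ?_ ?_ ?_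
  · simp
  · rw [Iso.refl_hom, Category.comp_id, ← e3, IsPullback.isoPullback_hom_fst_assoc]
  · rw [Iso.refl_hom, Iso.refl_hom, Category.comp_id, Category.id_comp, e2]
  · simp

end

end Pool.Agent.Ell.H30
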