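import Pool.Agent.Lib.MP_c7af3c_ag.ELL.Model

/-!
# MP_c7af3c_ag, project ELL: module PFT
-/

set_option autoImplicit false

namespace Pool.Agent.Ell.H30

open AlgebraicGeometry CategoryTheory CategoryTheory.Limits
open MvPolynomial (homogeneousSubmodule)

section

attribute [local instance] MvPolynomial.gradedAlgebra

/-- module PFT -/
theorem pft : PftStatement := by
  intro A _ n
  have h1 : IsScalarTower A (homogeneousSubmodule (Fin (n + 1)) A 0)
      (MvPolynomial (Fin (n + 1)) A) :=
    ⟨fun a b c => by
      change (a • (b : MvPolynomial (Fin (n + 1)) A)) * c = a • ((b : MvPolynomial _ A) * c)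
      exact smul_mul_assoc a _ c⟩
  have h2 : Algebra.FiniteType (homogeneousSubmodule (Fin (n + 1)) A 0)
      (MvPolynomial (Fin (n + 1)) A) :=
    Algebra.FiniteType.of_restrictScalars_finiteType A _ _
  have h3 : Function.Surjective
      (algebraMap A (homogeneousSubmodule (Fin (n + 1)) A 0)) := by
    rintro ⟨x, hx⟩
    rw [MvPolynomial.mem_homogeneousSubmodule] at hx
    refine ⟨MvPolynomial.coeff 0 x, Subtype.ext ?_⟩
    change MvPolynomial.C (MvPolynomial.coeff 0 x) = x
    exact (MvPolynomial.totalDegree_eq_zero_iff_eq_C.1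
      ((MvPolynomial.totalDegree_zero_iff_isHomogeneous _).2 hx)).symm
  have h4 : LocallyOfFiniteType (Spec.map (CommRingCat.ofHom
      (algebraMap A (homogeneousSubmodule (Fin (n + 1)) A 0)))) := by
    rw [HasRingHomProperty.Spec_iff (P := @LocallyOfFiniteType)]
    exact RingHom.FiniteType.of_surjective _ h3
  unfold strP
  exact ⟨inferInstance, inferInstance, inferInstance⟩

end

end Pool.Agent.Ell.H30
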